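import Pool.Agent.MDG.Stmts

/-!
# Squad MDG (MP_3faef8_co), row NS5: five nested maximum cuts
-/

set_option autoImplicit false

open Pool.Agent.HEC

namespace Pool.Agent.MDG.H27

theorem ns5 (h : HEC.MctStmt) : Ns5Stmt := by
  intro V _ G
  obtain ⟨t1, h1⟩ := h V G
  obtain ⟨t2, h2⟩ := h V (sam G t1)
  obtain ⟨t3, h3⟩ := h V (sam (sam G t1) t2)
  obtain ⟨t4, h4⟩ := h V (sam (sam (sam G t1) t2) t3)
  obtain ⟨t5, h5⟩ := h V (sam (sam (sam (sam G t1) t2) t3) t4)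
  exact ⟨⟨t1, t2, t3, t4, t5, h1, h2, h3, h4, h5⟩⟩

end Pool.Agent.MDG.H27
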